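import Mathlib
import Pool.Agent.H284.AP.Spl

/-!
# Proper solutions over Hilbertian fields: nonsplit extensions by products of wreath products

Let `X → Γ` be an epimorphism of groups with kernel `N ≅ ∏ G i ≀ S_(n i)` (finite direct product),
where all `G i` are nontrivial finite groups with trivial centre and `n i ≥ ((3 |G i| + 2)!)^3`;
`WreathStep` says in addition that for every `i` the inner automorphisms of `G i` have a complement
in `Aut (G i)` (`InnerSplit`) or `|G i|` is coprime to the index of `F C_X(F)` in `N_X(F)`
(`locIndex`), where `F` is the `i`-th factor of `N` (`Factor`); that index is the order of the group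
of outer automorphisms of `F` given by the elements of `X` which normalize `F`. The extension need
not be split, `X` may permute isomorphic factors in any way.

The theorem: let `K` be any Hilbertian field (the hypothesis is that of the frozen statement
S03429), `L` a finite Galois extension of `K` and `Gal(L/K) = W 0 ← W 1 ← W 2 ← ...` a sequence of
such epimorphisms. Then the embedding problem given by `L/K` and the projection of the inverse limit
of the `W i` to `Gal(L/K)` has a proper solution. (With identities `W (i + 1) → W i`, `i ≥ 1`, this
is the finite embedding problem `W 1 → Gal(L/K)`.)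

Outline. The groups `G i ≀ S_(n i)` are directly indecomposable and centreless, so the automorphisms
of `N` permute the factors (Krull-Schmidt), and `X → Γ` is determined by the homomorphism
`Γ → Out N = ∏ Out(G j) ≀ S_(k j)`. This homomorphism is lifted to `∏ Aut(G j) ≀ S_(k j)`: it is
enough to lift the homomorphisms `N_X(F) → Out(G j)` for all factors `F`, which is done by the
complement or by the theorem of Schur and Zassenhaus. So `X` is a semidirect product of `N` and `Γ`,
the action being given by automorphisms of the groups `G j` and permutations of the factors. The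
embedding problems with such kernels `(G ≀ S_n)^k` are solved in the starting library.
-/

set_option autoImplicit false

open Pool.Agent.H284.AP (WreathStep)

namespace Pool.Agent.Results.MP_e9d732_al.CoprimeExtensions

/-- The inverse limit of the sequence `W 0 ← W 1 ← W 2 ← ...`: the group of all sequences `x` with
`p i (x (i + 1)) = x i`. -/
abbrev InvLim {W : ℕ → Type} [∀ i, Group (W i)] (p : ∀ i, W (i + 1) →* W i) : Subgroup (∀ i, W i) :=
  Pool.Agent.TH15.IGP.Lim p

/-- The defining property of the inverse limit. -/
theorem mem_invLim {W : ℕ → Type} [∀ i, Group (W i)] (p : ∀ i, W (i + 1) →* W i)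
    (x : ∀ i, W i) : x ∈ InvLim p ↔ ∀ i, p i (x (i + 1)) = x i := Iff.rfl

/-- `K` is Hilbertian (as in the frozen statement). -/
def Hilb (K : Type) [Field K] : Prop :=
  ∀ (f : Polynomial (Polynomial K)), f.Monic → Irreducible f →
    (f.map (algebraMap (Polynomial K) (FractionRing (Polynomial K)))).Separable →
    ∀ g : Polynomial K, g ≠ 0 →
      ∃ a : K, g.eval a ≠ 0 ∧ Irreducible (f.map (Polynomial.evalRingHom a))

/-- The embedding problem over `K` given by the finite Galois extension `L` of `K` and the
projection `x ↦ e₀ (x 0)` of the inverse limit of the `W i` to `Gal(L/K)` has a proper solution: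
there are a Galois extension `F` of `K` containing `L` and an isomorphism `γ` of `Gal(F/K)` with the
inverse limit, all of whose components are continuous (have open kernel), such that the action on
`L` is `σ ↦ e₀ (component of γ σ in W 0)`. -/
def ProperSol (K L : Type) [Field K] [Field L] [Algebra K L] {W : ℕ → Type} [∀ i, Group (W i)]
    (p : ∀ i, W (i + 1) →* W i) (e₀ : W 0 ≃* (L ≃ₐ[K] L)) : Prop :=
  ∃ (F : Type) (_ : Field F) (_ : Algebra K F) (_ : Algebra L F) (_ : IsScalarTower K L F)
    (_ : IsGalois K F) (γ : (F ≃ₐ[K] F) ≃* InvLim p),
    (∀ i, IsOpen {σ : F ≃ₐ[K] F | (γ σ).1 i = 1}) ∧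
    ∀ (σ : F ≃ₐ[K] F) (x : L), σ (algebraMap L F x) = algebraMap L F (e₀ ((γ σ).1 0) x)

end Pool.Agent.Results.MP_e9d732_al.CoprimeExtensions

open Pool.Agent.Results.MP_e9d732_al.CoprimeExtensions in
theorem Pool.Agent.Results.MP_e9d732_al.CoprimeExtensions.result :
    ∀ (K : Type) [Field K], Hilb K →
      ∀ (L : Type) [Field L] [Algebra K L] [FiniteDimensional K L] [IsGalois K L]
        (W : ℕ → Type) [∀ i, Group (W i)] (e₀ : W 0 ≃* (L ≃ₐ[K] L))
        (p : ∀ i, W (i + 1) →* W i), (∀ i, WreathStep (p i)) → ProperSol K L p e₀ := by
  intro K _ hK L _ _ _ _ W _ e₀ p hp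
  exact Pool.Agent.TH444.TW.cls_hilb hK W p
    (fun i => Pool.Agent.H284.AP.wreathStep_cls K (hp i)) L e₀
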