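import Mathlib
import Pool.Agent.H284.AP.Stp

/-!
# Proper solutions over Hilbertian fields: kernels attached to large direct powers

Let `G i`, `i ∈ I`, be finitely many arbitrary finite groups, `H = ∏ (G i)^(n i)` with
`n i ≥ bd |G i|`, where `bd c = ((3 c c! + 2)!)^3` (`LargePower H`). Let `Aut_c(H)`
(`CentralAut H`) be the group of all automorphisms `θ` with `θ x x⁻¹ ∈ Z(H)` for all `x`, `Z1(H)`
the subgroup of the centre generated by all these elements `θ x x⁻¹`, and
`E(H) = Z1(H) ⋊ Aut_c(H)` (`EE H`), a normal subgroup of the holomorph `Hol(H) = H ⋊ Aut(H)`.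
`PowerType N` means that `N` is isomorphic to one of the groups
`Aut(H)/[Aut_c(H), Aut_c(H)]` (`AutE H`), `Hol(H)/[E(H), E(H)]` (`HolE H`), or to `Aut(H)` or
`Hol(H)`, where in the last two cases `f (g x) = 1` is assumed for any two homomorphisms
`f, g : H → Z(H)` (condition `CC H`; for example it holds if `Z(G i) ≤ [G i, G i]` for all `i`).

The theorem: let `K` be any Hilbertian field (the hypothesis is that of the frozen statement
S03429), `L` a finite Galois extension of `K` and `Gal(L/K) = W 0 ← W 1 ← W 2 ← ...` a sequence of
projections `W (i + 1) = N^k ⋊ W i → W i` with groups `N` as above (`N` and `k` depend on `i`),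
where `W i` acts on `N^k` through a homomorphism `W i → N ≀ S_k` (`PowerStep`). Then the embedding
problem given by `L/K` and the projection of the inverse limit of the `W i` to `Gal(L/K)` has a
proper solution. (With `k = 0` for all `i ≥ 1` this is the finite embedding problem
`W 1 → Gal(L/K)`.)

Outline. `H` is a direct product of indecomposable groups `R j` with large multiplicities `m j`. By
the method of the Krull-Schmidt theorem every automorphism of `H` is, up to a central automorphism,
given by a permutation of isomorphic nonabelian factors and automorphisms of these factors; so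
`Hol(H)` is the product of `E(H)` and the image of the direct product of the wreath products
`Hol(R j) ≀ S_(m j)`. So `Hol(H)/[E(H), E(H)]` is a quotient of a semidirect product of a direct
product of wreath products with a finite abelian kernel. The starting library realizes the wreath
products and solves the split embedding problems with abelian kernels.
-/

set_option autoImplicit false

open Pool.Agent.H284.AP (PowerStep)

namespace Pool.Agent.Results.MP_e9d732_al.LargePowers

/-- The inverse limit of the sequence `W 0 ← W 1 ← W 2 ← ...`: the group of all sequences `x` with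
`p i (x (i + 1)) = x i`. -/
abbrev InvLim {W : ℕ → Type} [∀ i, Group (W i)] (p : ∀ i, W (i + 1) →* W i) : Subgroup (∀ i, W i) :=
  Pool.Agent.TH15.IGP.Lim p

/-- The defining property of the inverse limit. -/
theorem mem_invLim {W : ℕ → Type} [∀ i, Group (W i)] (p : ∀ i, W (i + 1) →* W i)
    (x : ∀ i, W i) : x ∈ InvLim p ↔ ∀ i, p i (x (i + 1)) = x i := Iff.rfl

/-- `K` is Hilbertian (as in the frozen statement). -/
def Hilb (K : Type) [Field K] : Prop :=
  ∀ (f : Polynomial (Polynomial K)), f.Monic → Irreducible f →
    (f.map (algebraMap (Polynomial K) (FractionRing (Polynomial K)))).Separable →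
    ∀ g : Polynomial K, g ≠ 0 →
      ∃ a : K, g.eval a ≠ 0 ∧ Irreducible (f.map (Polynomial.evalRingHom a))

/-- The embedding problem over `K` given by the finite Galois extension `L` of `K` and the
projection `x ↦ e₀ (x 0)` of the inverse limit of the `W i` to `Gal(L/K)` has a proper solution:
there are a Galois extension `F` of `K` containing `L` and an isomorphism `γ` of `Gal(F/K)` with the
inverse limit, all of whose components are continuous (have open kernel), such that the action on
`L` is `σ ↦ e₀ (component of γ σ in W 0)`. -/
def ProperSol (K L : Type) [Field K] [Field L] [Algebra K L] {W : ℕ → Type} [∀ i, Group (W i)]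
    (p : ∀ i, W (i + 1) →* W i) (e₀ : W 0 ≃* (L ≃ₐ[K] L)) : Prop :=
  ∃ (F : Type) (_ : Field F) (_ : Algebra K F) (_ : Algebra L F) (_ : IsScalarTower K L F)
    (_ : IsGalois K F) (γ : (F ≃ₐ[K] F) ≃* InvLim p),
    (∀ i, IsOpen {σ : F ≃ₐ[K] F | (γ σ).1 i = 1}) ∧
    ∀ (σ : F ≃ₐ[K] F) (x : L), σ (algebraMap L F x) = algebraMap L F (e₀ ((γ σ).1 0) x)

end Pool.Agent.Results.MP_e9d732_al.LargePowers

open Pool.Agent.Results.MP_e9d732_al.LargePowers in
theorem Pool.Agent.Results.MP_e9d732_al.LargePowers.result :
    ∀ (K : Type) [Field K], Hilb K →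
      ∀ (L : Type) [Field L] [Algebra K L] [FiniteDimensional K L] [IsGalois K L]
        (W : ℕ → Type) [∀ i, Group (W i)] (e₀ : W 0 ≃* (L ≃ₐ[K] L))
        (p : ∀ i, W (i + 1) →* W i), (∀ i, PowerStep (p i)) → ProperSol K L p e₀ := by
  intro K _ hK L _ _ _ _ W _ e₀ p hp
  exact Pool.Agent.TH444.TW.cls_hilb hK W p
    (fun i => Pool.Agent.H284.AP.powerStep_cls (hp i) K) L e₀
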