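import Pool.Agent.V11286.IG.SymU

/-!
# Split embedding problems over Hilbertian fields: solutions over one extension with a symmetric group

For every `m` and every finite group `Γ` there is an `n₀` such that the following holds for ALL Hilbertian fields `K` (of
any characteristic), all Galois extensions `F₁` of `K` with the group `Γ` and all `n ≥ n₀`: there is a Galois extension `M`
of `K` with `Gal(M/K) ≅ S_n` such that EVERY split embedding problem for `F₁/K` with a kernel of order at most `m` has a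
proper solution over `M`. For one problem (also if it is only weakly solvable) `n ≥ ((3 k + 2)!) ^ 3` is enough, where `k`
is the order of the kernel.
-/

set_option autoImplicit false

namespace Pool.Agent.Results.MP_e9d732_al.SymmetricBaseChange

/-- Hilbertian fields, as in the frozen statement `S03429`. -/
def Hilbertian (K : Type) [Field K] : Prop :=
  ∀ (f : Polynomial (Polynomial K)), f.Monic → Irreducible f →
    (f.map (algebraMap (Polynomial K) (FractionRing (Polynomial K)))).Separable →
    ∀ g : Polynomial K, g ≠ 0 → ∃ a : K, g.eval a ≠ 0 ∧ Irreducible (f.map (Polynomial.evalRingHom a))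

/-- Let `F₁` be a Galois extension and `M` an extension of the field `K`, and `α : E → Gal(F₁/K)` a homomorphism. The
embedding problem `α` has a proper solution over `M`: there are a finite Galois extension `F` of `M`, containing also `F₁`
(compatibly with `K`), and an isomorphism `γ : Gal(F/M) → E` such that `α ∘ γ` is the restriction to `F₁`. -/
def ProperSol (K F₁ E : Type) [Field K] [Field F₁] [Algebra K F₁] [Group E] (α : E →* (F₁ ≃ₐ[K] F₁)) (M : Type)
    [Field M] [Algebra K M] : Prop :=
  ∃ (F : Type) (_ : Field F) (_ : Algebra M F) (_ : Algebra F₁ F) (_ : Algebra K F) (_ : IsScalarTower K M F)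
    (_ : IsScalarTower K F₁ F) (_ : FiniteDimensional M F) (_ : IsGalois M F) (γ : (F ≃ₐ[M] F) ≃* E),
    ∀ (σ : F ≃ₐ[M] F) (x : F₁), σ (algebraMap F₁ F x) = algebraMap F₁ F (α (γ σ) x)

/-- The embedding problem `α : E → Gal(F₁/K)` is weakly solvable: there are a finite Galois extension `L'` of `K` which
contains `F₁` and a homomorphism `s : Gal(L'/K) → E` such that `α ∘ s` is the restriction to `F₁`. -/
def WeakSol (K F₁ E : Type) [Field K] [Field F₁] [Algebra K F₁] [Normal K F₁] [Group E] (α : E →* (F₁ ≃ₐ[K] F₁)) :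
    Prop :=
  ∃ (L' : Type) (_ : Field L') (_ : Algebra K L') (_ : FiniteDimensional K L')
      (_ : IsGalois K L') (_ : Algebra F₁ L') (_ : IsScalarTower K F₁ L')
      (s : (L' ≃ₐ[K] L') →* E), ∀ ρ, α (s ρ) = ρ.restrictNormal F₁

/-- `M` is a Galois extension of `K` with the group `S_n`. -/
def Symmetric (K M : Type) [Field K] [Field M] [Algebra K M] (n : ℕ) : Prop :=
  IsGalois K M ∧ Nonempty (Equiv.Perm (Fin n) ≃* (M ≃ₐ[K] M))

/-- Every split embedding problem for `F₁/K` with a kernel of order at most `m` has a proper solution over `M`. -/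
def AllSplit (K F₁ M : Type) [Field K] [Field F₁] [Algebra K F₁] [Field M] [Algebra K M] (m : ℕ) : Prop :=
  ∀ (E : Type) [Group E] [Finite E] (α : E →* (F₁ ≃ₐ[K] F₁)) (s : (F₁ ≃ₐ[K] F₁) →* E), (∀ ρ, α (s ρ) = ρ) →
    Nat.card α.ker ≤ m → ProperSol K F₁ E α M

end Pool.Agent.Results.MP_e9d732_al.SymmetricBaseChange

open Pool.Agent.Results.MP_e9d732_al.SymmetricBaseChange in
/-- **Theorem.** (1) For every finite group `Γ` and every `m` there is an `n₀` such that for all Hilbertian fields `K`,
all Galois extensions `F₁` of `K` with a Galois group isomorphic to `Γ` and all `n ≥ n₀` there is a Galois extension `M`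
of `K` with `Gal(M/K) ≅ S_n` such that every split embedding problem `α : E → Gal(F₁/K)` with `|ker α| ≤ m` has a proper
solution over `M`. (2) For every Hilbertian field `K`, every weakly solvable finite embedding problem
`α : E → Gal(F₁/K)` over `K` and every `n ≥ ((3 |ker α| + 2)!) ^ 3` there is a Galois extension `M` of `K` with
`Gal(M/K) ≅ S_n` over which it has a proper solution. -/
theorem Pool.Agent.Results.MP_e9d732_al.SymmetricBaseChange.result :
    (∀ (Γ : Type) [Group Γ] [Finite Γ] (m : ℕ), ∃ n₀ : ℕ, ∀ (K : Type) [Field K], Hilbertian K →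
      ∀ (F₁ : Type) [Field F₁] [Algebra K F₁] [FiniteDimensional K F₁] [IsGalois K F₁],
        Nonempty (Γ ≃* (F₁ ≃ₐ[K] F₁)) → ∀ n ≥ n₀,
          ∃ (M : Type) (_ : Field M) (_ : Algebra K M), Symmetric K M n ∧ AllSplit K F₁ M m) ∧
    (∀ (K : Type) [Field K], Hilbertian K →
      ∀ (F₁ E : Type) [Field F₁] [Algebra K F₁] [FiniteDimensional K F₁] [IsGalois K F₁] [Group E] [Finite E]
        (α : E →* (F₁ ≃ₐ[K] F₁)), WeakSol K F₁ E α → ∀ n : ℕ, ((3 * Nat.card α.ker + 2).factorial) ^ 3 ≤ n →
          ∃ (M : Type) (_ : Field M) (_ : Algebra K M), Symmetric K M n ∧ ProperSol K F₁ E α M) := by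
  refine ⟨fun Γ _ _ m => ⟨Pool.Agent.V11286.IG.bdm Γ m, fun K _ hK F₁ _ _ _ _ ⟨e⟩ n hn => ?_⟩,
    fun K _ hK F₁ E _ _ _ _ _ _ α hw n hn => ?_⟩
  · obtain ⟨M, i1, i2, i3, h1, h2, -⟩ := Pool.Agent.V11286.IG.hilb_split Γ m K F₁ hK e n hn
    refine ⟨M, i1, i2, ⟨i3, h1⟩, fun E _ _ α s hs hm => ?_⟩
    obtain ⟨F, j1, j2, j3, j4, j5, j6, j7, j8, γ, hγ, -⟩ := h2 E α s hs hm
    exact ⟨F, j1, j2, j3, j4, j5, j6, j7, j8, γ, hγ⟩
  · obtain ⟨M, i1, i2, i3, h1, F, j1, j2, j3, j4, j5, j6, j7, j8, γ, hγ, -⟩ :=
      Pool.Agent.V11286.IG.hilb_weak K F₁ E α hK hw n hn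
    exact ⟨M, i1, i2, ⟨i3, h1⟩, F, j1, j2, j3, j4, j5, j6, j7, j8, γ, hγ⟩
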